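import Pool.Agent.Q260.GX.Spec

set_option autoImplicit false

/-!
# Project GX: assembly of the abstract part
-/

namespace Pool.Agent.Q260.GX

open MeasureTheory Filter Topology Set Complex
open Pool.Agent.Y749.Rig (nT)
open Pool.Agent.Q260.GM (LL)

/-- all statements of the abstract part -/
structure Abs : Prop where
  pm : S_PM
  t1a : S_T1a
  tl : S_TL
  t1b : S_T1b
  loc : S_LOC
  kil : S_KIL
  ssav : S_SSAV
  rav : S_RAV
  pair : S_PAIR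
  ssr : S_SSR
  av : S_AV
  kt : S_KT

theorem AU_of_AL {G : Dat} (h : G.AL) : G.AU 0 := by
  intro ε hε
  obtain ⟨b0, hb0, h1⟩ := h ε hε
  refine ⟨b0, hb0, fun b hb => ?_⟩
  filter_upwards [h1 b hb] with T k1
  have := (abs_le.1 k1).2
  linarith

theorem ab_bdd (H : Abs) {G : Dat} (hG : G.Good) (hC : G.Crude) :
    ∃ C : ℝ, 0 < C ∧ ∀ b : ℝ, 1 ≤ b → ∀ᶠ T : ℝ in atTop, G.VV T b ≤ C * b :=
  (H.kt G hG).2.2 (H.av G hG hC).2

theorem ab_pairs (H : Abs) {G : Dat} (hG : G.Good) (hC : G.Crude) {η : ℝ} (hη : 0 ≤ η) (h : G.AU η) :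
    ∀ ε : ℝ, 0 < ε → ∃ β : ℝ, 0 < β ∧ ∀ᶠ T : ℝ in atTop, G.Pc β T ≤ (G.n + 9 / 4 * η + ε) * nT T := by
  have hn := hG.n_pos
  exact (H.pair G hG hC).1 (G.n + 9 / 4 * η) (by positivity) fun ε hε =>
    H.rav G hG hC η ε hη ((H.kt G hG).1 η hη h) hε

theorem ab_ess (H : Abs) {G : Dat} (hG : G.Good) (hC : G.Crude) (h : G.AU 0) : G.EssM := by
  intro ε hε
  obtain ⟨β, hβ, h1⟩ := ab_pairs H hG hC le_rfl h ε hε
  refine ⟨β, hβ, ?_⟩
  filter_upwards [h1] with T h2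
  refine h2.trans (le_of_eq ?_)
  ring

theorem ab_AL (H : Abs) {G : Dat} (hG : G.Good) (hC : G.Crude) (h : G.EssM) : G.AL :=
  (H.kt G hG).2.1 ((H.av G hG hC).1 h)

end Pool.Agent.Q260.GX
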