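import Pool.Agent.Q260.GX.Spec2
import Pool.Agent.Q260.GX.Ab

set_option autoImplicit false

/-!
# Project GX: the theorem in terms of zeros and primes; definitions and elementary lemmas
-/

namespace Pool.Agent.Q260.GX

open MeasureTheory Filter Topology Set Complex
open Pool.Agent.Y749.Rig (nT)
open Pool.Agent.Q260.GM (LL kT kT_pos exp_kT exp_change)
open DirichletCharacter (LFunction)
open Pool.Agent.Q253.HV (psiC)

section defs

variable {q : ℕ} [NeZero q]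

/-- the multiplicity of `s` as a zero of the product of the `L(s, χ)`, `χ ∈ S` -/
noncomputable def mS (S : Finset (DirichletCharacter ℂ q)) (s : ℂ) : ℕ :=
  ∑ χ ∈ S, analyticOrderNatAt (LFunction χ) s

/-- the nontrivial zeros of the product with ordinate in `[0, T]` -/
def zer (S : Finset (DirichletCharacter ℂ q)) (T : ℝ) : Set ℂ :=
  {s : ℂ | (∃ χ ∈ S, LFunction χ s = 0) ∧ 0 < s.re ∧ s.re < 1 ∧ 0 ≤ s.im ∧ s.im ≤ T}

/-- the number of ordered pairs of zeros within `β` times `2π / log T` -/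
noncomputable def PP (S : Finset (DirichletCharacter ℂ q)) (T β : ℝ) : ℕ :=
  ∑ᶠ p ∈ {p : ℂ × ℂ | p.1 ∈ zer S T ∧ p.2 ∈ zer S T ∧
    |p.1.im - p.2.im| * Real.log T / (2 * Real.pi) ≤ β}, mS S p.1 * mS S p.2

/-- the number of zeros with property `A` -/
noncomputable def NumS (S : Finset (DirichletCharacter ℂ q)) (A : ℂ → Prop) (T : ℝ) : ℕ :=
  ∑ᶠ s ∈ {s : ℂ | s ∈ zer S T ∧ A s}, mS S s

/-- the variance -/
noncomputable def VS (S : Finset (DirichletCharacter ℂ q)) (T b : ℝ) : ℝ :=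
  T / Real.log T ^ 2 * ∫ x in (1 : ℝ)..(T ^ b),
    (psiS S (x + x / T) - psiS S x - (∑ χ ∈ S, dl χ) * (x / T)) ^ 2 / x ^ 2

end defs

variable {q : ℕ} [NeZero q]

lemma VV_eq (S : Finset (DirichletCharacter ℂ q)) {T b : ℝ} (hT : 1 ≤ T) (hb : 0 ≤ b) :
    (dat S).VV T b = VS S T b := by
  have hTp : 0 < T := by linarith
  have hlog : 0 ≤ Real.log T := Real.log_nonneg hT
  unfold Dat.VV VS
  congr 1
  rw [Real.rpow_def_of_pos hTp, mul_comm (Real.log T), ← Real.exp_zero, exp_change _ (by positivity)]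
  refine intervalIntegral.integral_congr fun u _ => ?_
  show (dat S).Dl (kT T) u ^ 2 = Real.exp u * ((psiS S (Real.exp u + Real.exp u / T) - psiS S (Real.exp u) -
    (∑ χ ∈ S, dl χ) * (Real.exp u / T)) ^ 2 / Real.exp u ^ 2)
  have e1 : Real.exp (u + kT T) = Real.exp u + Real.exp u / T := by
    rw [Real.exp_add, exp_kT hTp]; ring
  unfold Dat.Dl
  have e3 : (dat S).ph (u + kT T) - (dat S).ph u = psiS S (Real.exp u + Real.exp u / T) - psiS S (Real.exp u) -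
    (∑ χ ∈ S, dl χ) * (Real.exp u / T) := by
    show (psiS S (Real.exp (u + kT T)) - (∑ χ ∈ S, dl χ) * Real.exp (u + kT T)) - (psiS S (Real.exp u) - (∑ χ ∈ S, dl χ) * Real.exp u) = _
    rw [e1]; ring
  have e2 : Real.exp (-(u / 2)) ^ 2 = (Real.exp u)⁻¹ := by
    rw [← Real.exp_nat_mul, ← Real.exp_neg]; congr 1; push_cast; ring
  rw [e3, mul_pow, e2]
  have hne := (Real.exp_pos u).ne'
  field_simp

lemma analyticOn_LF (χ : DirichletCharacter ℂ q) {s : ℂ} (hs : s ≠ 1) : AnalyticAt ℂ (LFunction χ) s := by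
  have hd : DifferentiableOn ℂ (LFunction χ) {1}ᶜ := fun z hz =>
    (DirichletCharacter.differentiableAt_LFunction χ z (Or.inl hz)).differentiableWithinAt
  exact hd.analyticAt (isOpen_compl_singleton.mem_nhds hs)

lemma ord_zero (χ : DirichletCharacter ℂ q) {s : ℂ} (hs : s ≠ 1) (h : LFunction χ s ≠ 0) :
    analyticOrderNatAt (LFunction χ) s = 0 := by
  have := (analyticOn_LF χ hs).analyticOrderAt_eq_zero.2 h
  unfold analyticOrderNatAt
  rw [this]; rfl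

lemma ne_one_of {s : ℂ} (h : s.re < 1) : s ≠ 1 := by
  rintro rfl
  simp at h

lemma FZ_mem {S : Finset (DirichletCharacter ℂ q)} (hC : S_CNT) {T : ℝ} (i : (dat S).ι) :
    i ∈ (dat S).FZ T ↔ 0 ≤ (dat S).ga i ∧ (dat S).ga i ≤ T := by
  have hf : {i : (dat S).ι | 0 ≤ (dat S).ga i ∧ (dat S).ga i ≤ T}.Finite :=
    ((hC q S).1 T).subset fun i hi => by
      show |(dat S).ga i| ≤ T
      rw [abs_of_nonneg hi.1]; exact hi.2
  unfold Dat.FZ
  rw [dif_pos hf, Set.Finite.mem_toFinset]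
  rfl

lemma zer_fin {S : Finset (DirichletCharacter ℂ q)} (hC : S_CNT) (T : ℝ) : (zer S T).Finite := by
  have hf : {i : (dat S).ι | |(dat S).ga i| ≤ T}.Finite := (hC q S).1 T
  refine (hf.image (fun i => (i.2.1 : ℂ))).subset ?_
  rintro s ⟨⟨χ, hχ, h0⟩, h1, h2, h3, h4⟩
  refine ⟨⟨⟨χ, hχ⟩, ⟨s, h0, h1, h2⟩⟩, ?_, rfl⟩
  show |s.im| ≤ T
  rwa [abs_of_nonneg h3]

open Classical in
lemma sumZ {S : Finset (DirichletCharacter ℂ q)} (hC : S_CNT) {T : ℝ} {W : Finset ℂ} (hW : ∀ s, s ∈ W ↔ s ∈ zer S T)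
    (f : ℂ → ℝ) : ∑ i ∈ (dat S).FZ T, ((dat S).mu i : ℝ) * f i.2.1 = ∑ s ∈ W, (mS S s : ℝ) * f s := by
  have e1 : ∑ s ∈ W, (mS S s : ℝ) * f s = ∑ p ∈ S.attach ×ˢ W, (analyticOrderNatAt (LFunction p.1.1) p.2 : ℝ) * f p.2 := by
    rw [Finset.sum_product_right]
    refine Finset.sum_congr rfl fun s _ => ?_
    unfold mS
    push_cast
    rw [Finset.sum_mul, ← Finset.sum_attach]
  rw [e1]
  refine Finset.sum_of_injOn (fun i : (dat S).ι => ((⟨i.1.1, i.1.2⟩ : {x // x ∈ S}), (i.2.1 : ℂ))) ?_ ?_ ?_ ?_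
  · rintro ⟨⟨χ, hχ⟩, ⟨s, hs⟩⟩ _ ⟨⟨χ', hχ'⟩, ⟨s', hs'⟩⟩ _ h
    obtain ⟨h1, h2⟩ := Prod.mk.inj h
    have h3 : χ = χ' := congrArg Subtype.val h1
    have h4 : s = s' := h2
    subst h3
    subst h4
    rfl
  · rintro ⟨⟨χ, hχ⟩, ⟨s, hs⟩⟩ hi
    have hi' := (FZ_mem hC _).1 (Finset.mem_coe.1 hi)
    rw [Finset.coe_product]
    exact ⟨Finset.mem_coe.2 (Finset.mem_attach _ _), Finset.mem_coe.2 ((hW _).2 ⟨⟨χ, hχ, hs.1⟩, hs.2.1, hs.2.2, hi'.1, hi'.2⟩)⟩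
  · rintro ⟨χ, s⟩ hp hn
    have hs : s ∈ zer S T := (hW s).1 (Finset.mem_product.1 hp).2
    have h0 : LFunction χ.1 s ≠ 0 := by
      intro h0
      refine hn ⟨⟨⟨χ.1, χ.2⟩, ⟨s, h0, hs.2.1, hs.2.2.1⟩⟩, ?_, rfl⟩
      exact Finset.mem_coe.2 ((FZ_mem hC _).2 ⟨hs.2.2.2.1, hs.2.2.2.2⟩)
    show (analyticOrderNatAt (LFunction χ.1) s : ℝ) * f s = 0
    rw [ord_zero χ.1 (ne_one_of hs.2.2.1) h0]
    simp
  · rintro ⟨⟨χ, hχ⟩, ⟨s, hs⟩⟩ _
    rfl

open Classical in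
lemma Pc_PP {S : Finset (DirichletCharacter ℂ q)} (hC : S_CNT) (T β : ℝ) : (PP S T β : ℝ) = (dat S).Pc β T := by
  set W : Finset ℂ := (zer_fin hC T (S := S)).toFinset with hWd
  have hW : ∀ s, s ∈ W ↔ s ∈ zer S T := fun s => Set.Finite.mem_toFinset _
  set c : ℂ → ℂ → ℝ := fun s s' => if |s.im - s'.im| * Real.log T / (2 * Real.pi) ≤ β then 1 else 0 with hc
  have e1 : (dat S).Pc β T = ∑ i ∈ (dat S).FZ T, ((dat S).mu i : ℝ) *
      ∑ j ∈ (dat S).FZ T, ((dat S).mu j : ℝ) * c i.2.1 j.2.1 := by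
    unfold Dat.Pc
    refine Finset.sum_congr rfl fun i _ => ?_
    rw [Finset.mul_sum]
    refine Finset.sum_congr rfl fun j _ => ?_
    show ((dat S).mu i : ℝ) * (dat S).mu j * (if |(dat S).ga i - (dat S).ga j| * Real.log T / (2 * Real.pi) ≤ β then 1 else 0) = _
    rw [mul_assoc]
    rfl
  rw [e1, sumZ hC hW (fun s => ∑ j ∈ (dat S).FZ T, ((dat S).mu j : ℝ) * c s j.2.1)]
  have e2 : {p : ℂ × ℂ | p.1 ∈ zer S T ∧ p.2 ∈ zer S T ∧ |p.1.im - p.2.im| * Real.log T / (2 * Real.pi) ≤ β} =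
      ↑((W ×ˢ W).filter (fun p => |p.1.im - p.2.im| * Real.log T / (2 * Real.pi) ≤ β)) := by
    ext p
    rw [Finset.mem_coe, Finset.mem_filter, Finset.mem_product, hW, hW]
    exact ⟨fun h => ⟨⟨h.1, h.2.1⟩, h.2.2⟩, fun h => ⟨h.1.1, h.1.2, h.2⟩⟩
  unfold PP
  rw [e2, finsum_mem_coe_finset]
  push_cast
  rw [Finset.sum_filter, Finset.sum_product]
  refine Finset.sum_congr rfl fun s _ => ?_
  rw [sumZ hC hW (fun s' => c s s'), Finset.mul_sum]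
  refine Finset.sum_congr rfl fun s' _ => ?_
  show (if |s.im - s'.im| * Real.log T / (2 * Real.pi) ≤ β then (mS S s : ℝ) * mS S s' else 0) =
    (mS S s : ℝ) * ((mS S s' : ℝ) * (if |s.im - s'.im| * Real.log T / (2 * Real.pi) ≤ β then 1 else 0))
  split_ifs <;> ring

lemma Ns_eq {S : Finset (DirichletCharacter ℂ q)} (hC : S_CNT) {T : ℝ} {W : Finset ℂ} (hW : ∀ s, s ∈ W ↔ s ∈ zer S T) :
    (dat S).Ns T = ∑ s ∈ W, (mS S s : ℝ) := by
  have := sumZ hC hW (fun _ => (1 : ℝ))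
  simpa [Dat.Ns] using this

lemma mS_pos {S : Finset (DirichletCharacter ℂ q)} {T : ℝ} {s : ℂ} (hs : s ∈ zer S T)
    (hne : ∀ χ : DirichletCharacter ℂ q, ∀ z : ℂ, LFunction χ z = 0 → 0 < z.re → z.re < 1 → 1 ≤ analyticOrderNatAt (LFunction χ) z) :
    1 ≤ mS S s := by
  obtain ⟨⟨χ, hχ, h0⟩, h1, h2, -⟩ := hs
  exact (hne χ s h0 h1 h2).trans (Finset.single_le_sum (f := fun χ => analyticOrderNatAt (LFunction χ) s) (fun _ _ => Nat.zero_le _) hχ)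

end Pool.Agent.Q260.GX
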