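import Pool.Agent.Q260.GM.Xj

set_option autoImplicit false

/-!
# Project GX: primes in short intervals and zeros, for real products of L-functions; abstract data

The library `Pool/Agent/Q260/GM` (Riemann zeta function) is carried over to data `G : Dat`: `ga`, `mu` the ordinates of the nontrivial
zeros (positive and negative) with multiplicities, all on the critical line, `n` the degree, `m` the order of the pole (`0` or `1`), `ph w` the error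
`ψ_F(e^w) - m e^w` for the primes, `LD` the logarithmic derivative `F'/F`.
-/

namespace Pool.Agent.Q260.GX

open MeasureTheory Filter Topology Set Complex
open Pool.Agent.Y23 (Lg one_le_Lg)
open Pool.Agent.Y749.Rig (nT)
open Pool.Agent.Q260.GM (pk sx LL kk h0 kT)

/-- the data -/
structure Dat where
  /-- the index set of the zeros -/
  ι : Type
  /-- multiplicities -/
  mu : ι → ℕ
  /-- ordinates -/
  ga : ι → ℝ
  /-- degree -/
  n : ℝ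
  /-- order of the pole -/
  m : ℝ
  /-- the error for the primes -/
  ph : ℝ → ℝ
  /-- the logarithmic derivative -/
  LD : ℂ → ℂ

namespace Dat

variable (G : Dat)

/-- the error in `(e^u, e^(u+κ)]`, normalised -/
noncomputable def Dl (κ u : ℝ) : ℝ := Real.exp (-(u / 2)) * (G.ph (u + κ) - G.ph u)

/-- `- Re F'/F (1/2 + x + i t)` -/
noncomputable def DD (x t : ℝ) : ℝ := -(G.LD (sx x t)).re

/-- the Poisson sum over all zeros -/
noncomputable def Pz (x t : ℝ) : ℝ := ∑' i, (G.mu i : ℝ) * pk x (t - G.ga i)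

open Classical in
/-- the zeros with ordinate in `[0, T]` -/
noncomputable def FZ (T : ℝ) : Finset G.ι :=
  if h : {i : G.ι | 0 ≤ G.ga i ∧ G.ga i ≤ T}.Finite then h.toFinset else ∅

/-- their number, with multiplicity -/
noncomputable def Ns (T : ℝ) : ℝ := ∑ i ∈ G.FZ T, (G.mu i : ℝ)

/-- the finite Poisson sum -/
noncomputable def PT (T x t : ℝ) : ℝ := ∑ i ∈ G.FZ T, (G.mu i : ℝ) * pk x (t - G.ga i)

/-- the sum of the Cauchy kernels over the pairs -/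
noncomputable def QQ (x T : ℝ) : ℝ :=
  ∑ i ∈ G.FZ T, ∑ j ∈ G.FZ T, (G.mu i : ℝ) * G.mu j * (4 * x / (4 * x ^ 2 + (G.ga i - G.ga j) ^ 2))

/-- the normalised pair sum (for `zeta` this is `∫ ra a ∂(Mp T)`) -/
noncomputable def RR (a T : ℝ) : ℝ := G.QQ (a / Real.log T) T / (nT T * Real.log T)

open Classical in
/-- the number of ordered pairs within `β` spacings `2π / log T` -/
noncomputable def Pc (β T : ℝ) : ℝ :=
  ∑ i ∈ G.FZ T, ∑ j ∈ G.FZ T, (G.mu i : ℝ) * G.mu j *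
    (if |G.ga i - G.ga j| * Real.log T / (2 * Real.pi) ≤ β then 1 else 0)

/-- the density -/
noncomputable def gd (κ a y : ℝ) : ℝ := G.DD (a / LL κ) (y / κ) ^ 2 / LL κ ^ 2

/-- the weighted mean square for the primes -/
noncomputable def SS (κ x : ℝ) : ℝ := ∫ u in Ioi (0 : ℝ), G.Dl κ u ^ 2 * Real.exp (-(2 * x * u))

/-- the pairing with the density -/
noncomputable def KI (f : ℝ → ℝ) (κ a : ℝ) : ℝ := ∫ y in Ioi (0 : ℝ), f y * G.gd κ a y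

/-- the variance for the primes up to `T^b` -/
noncomputable def VV (T b : ℝ) : ℝ := T / Real.log T ^ 2 * ∫ u in (0 : ℝ)..(b * Real.log T), G.Dl (kT T) u ^ 2

/-- the hypotheses on the data -/
structure Good : Prop where
  mu_pos : ∀ i, 1 ≤ G.mu i
  n_pos : 1 ≤ G.n
  m_le : |G.m| ≤ 1
  zs : ∀ t : ℝ, Summable fun i => (G.mu i : ℝ) * (1 / (1 + (G.ga i - t) ^ 2))
  zl : ∃ K : ℝ, 0 < K ∧ ∀ t : ℝ, ∑' i, (G.mu i : ℝ) * (1 / (1 + (G.ga i - t) ^ 2)) ≤ K * Lg t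
  cnt : Tendsto (fun T => G.Ns T / (T * Real.log T)) atTop (𝓝 (G.n / (2 * Real.pi)))
  ldc : ∀ x : ℝ, 0 < x → x ≤ 1 / 4 → Continuous fun t : ℝ => G.LD (sx x t)
  ldb : ∃ C : ℝ, 0 < C ∧ ∀ x : ℝ, 0 < x → x ≤ 1 / 4 → ∀ t : ℝ, ‖G.LD (sx x t)‖ ≤ C * Lg t / x
  ldp : ∃ A : ℝ, 1 ≤ A ∧ ∀ x : ℝ, 0 < x → x ≤ 1 / 4 → ∀ t : ℝ, 1 ≤ |t| →
    |G.DD x t - (G.n * Real.log |t| / 2 - G.Pz x t)| ≤ A
  lde : ∀ x t : ℝ, 0 < x → x ≤ 1 / 4 → G.DD x (-t) = G.DD x t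
  phm : Measurable G.ph
  l2 : ∀ θ : ℝ, 1 < θ → IntegrableOn (fun w => G.ph w ^ 2 * Real.exp (-(θ * w))) (Ioi 0)
  lap : ∀ κ x t : ℝ, 0 < κ → κ ≤ 1 / 2 → 0 < x → x ≤ 1 / 4 →
    IntegrableOn (fun u : ℝ => (G.Dl κ u : ℂ) * cexp (-((x + t * I) * u))) (Ioi 0) ∧
    ∫ u in Ioi (0 : ℝ), (G.Dl κ u : ℂ) * cexp (-((x + t * I) * u)) =
      -((cexp (κ * sx x t) - 1) / sx x t) * G.LD (sx x t) - G.m * ((cexp κ - 1) / (sx x t - 1))

/-- the crude bound for the pairs -/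
def Crude : Prop := ∃ K : ℝ, 1 ≤ K ∧ ∀ᶠ T : ℝ in atTop, ∀ a : ℝ, 0 < a → a ≤ 1 → a * G.RR a T ≤ K

/-- the averaged upper bound -/
def AUk (η : ℝ) : Prop := ∀ ε : ℝ, 0 < ε → ∃ b0 : ℝ, 1 ≤ b0 ∧ ∀ b : ℝ, b0 ≤ b → ∀ᶠ κ : ℝ in 𝓝[>] 0,
  ∫ u in (0 : ℝ)..(b * LL κ), G.Dl κ u ^ 2 ≤ (G.n + η + ε) * b * (κ * LL κ ^ 2)

/-- few close pairs -/
def EssM : Prop := ∀ ε : ℝ, 0 < ε → ∃ β : ℝ, 0 < β ∧ ∀ᶠ T : ℝ in atTop, G.Pc β T ≤ (G.n + ε) * nT T

/-- the averaged upper bound in terms of `T` -/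
def AU (η : ℝ) : Prop := ∀ ε : ℝ, 0 < ε → ∃ b0 : ℝ, 1 ≤ b0 ∧ ∀ b : ℝ, b0 ≤ b → ∀ᶠ T : ℝ in atTop,
  G.VV T b ≤ (G.n + η + ε) * b

/-- the averaged asymptotic formula in terms of `T` -/
def AL : Prop := ∀ ε : ℝ, 0 < ε → ∃ b0 : ℝ, 1 ≤ b0 ∧ ∀ b : ℝ, b0 ≤ b → ∀ᶠ T : ℝ in atTop,
  |G.VV T b - G.n * b| ≤ ε * b

end Dat

end Pool.Agent.Q260.GX
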