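import Pool.Agent.Q260.GX.Cd

set_option autoImplicit false

/-!
# Project GX: the theorem
-/

namespace Pool.Agent.Q260.GX

open MeasureTheory Filter Topology Set Complex
open Pool.Agent.Y749.Rig (nT nT_pos)
open Pool.Agent.Q260.GM (LL kT kT_pos exp_kT exp_change pk sx)
open DirichletCharacter (LFunction)
open Pool.Agent.Q253.HV (psiC)

/-- the statements of the concrete part -/
structure Con : Prop where
  cnt : S_CNT
  sum : S_SUM
  cru : S_CRU
  grs : S_GRS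
  l2u : S_L2U

variable {q : ℕ} [NeZero q]

/-- the averaged upper bound -/
def UpS (S : Finset (DirichletCharacter ℂ q)) (η : ℝ) : Prop := ∀ ε : ℝ, 0 < ε → ∃ b0 : ℝ, ∀ b : ℝ, b0 ≤ b →
  ∀ᶠ T : ℝ in atTop, VS S T b ≤ (S.card + η + ε) * b

/-- the averaged asymptotic formula -/
def AsS (S : Finset (DirichletCharacter ℂ q)) : Prop := ∀ ε : ℝ, 0 < ε → ∃ b0 : ℝ, ∀ b : ℝ, b0 ≤ b →
  ∀ᶠ T : ℝ in atTop, |VS S T b - S.card * b| ≤ ε * b

/-- few close pairs -/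
def EsS (S : Finset (DirichletCharacter ℂ q)) : Prop := ∀ ε : ℝ, 0 < ε → ∃ β : ℝ, 0 < β ∧
  ∀ᶠ T : ℝ in atTop, (PP S T β : ℝ) ≤ (S.card + ε) * (T * Real.log T / (2 * Real.pi))

/-- the number of zeros of `L(s, χ)` with ordinate in `(T1, T2]`, with multiplicity -/
noncomputable def NC (χ : DirichletCharacter ℂ q) (T1 T2 : ℝ) : ℕ :=
  ∑ᶠ s ∈ {s : ℂ | LFunction χ s = 0 ∧ 0 < s.re ∧ s.re < 1 ∧ T1 < s.im ∧ s.im ≤ T2}, analyticOrderNatAt (LFunction χ) s

/-- the number of simple zeros of `L(s, χ)` on the critical line with ordinate in `(T1, T2]` -/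
noncomputable def NsC (χ : DirichletCharacter ℂ q) (T1 T2 : ℝ) : ℕ :=
  {s : ℂ | LFunction χ s = 0 ∧ s.re = 1 / 2 ∧ T1 < s.im ∧ s.im ≤ T2 ∧ analyticOrderNatAt (LFunction χ) s = 1}.ncard

lemma psiS_bdd (S : Finset (DirichletCharacter ℂ q)) (X : ℝ) : ∃ B : ℝ, ∀ x : ℝ, x ≤ X → |psiS S x| ≤ B := by
  refine ⟨∑ χ ∈ S, ∑ n ∈ Finset.Icc 1 ⌊X⌋₊, ArithmeticFunction.vonMangoldt n, fun x hx => ?_⟩
  unfold psiS
  refine (Complex.abs_re_le_norm _).trans ((norm_sum_le _ _).trans (Finset.sum_le_sum fun χ _ => ?_))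
  unfold psiC
  refine (norm_sum_le _ _).trans ?_
  refine (Finset.sum_le_sum (g := fun n => ArithmeticFunction.vonMangoldt n) fun n _ => ?_).trans
    (Finset.sum_le_sum_of_subset_of_nonneg (Finset.Icc_subset_Icc le_rfl (Nat.floor_le_floor hx))
      fun n _ _ => ArithmeticFunction.vonMangoldt_nonneg)
  rw [norm_mul, Complex.norm_real, Real.norm_of_nonneg ArithmeticFunction.vonMangoldt_nonneg]
  exact mul_le_of_le_one_right ArithmeticFunction.vonMangoldt_nonneg (DirichletCharacter.norm_le_one χ _)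

lemma ph_meas (S : Finset (DirichletCharacter ℂ q)) : Measurable (dat S).ph := by
  show Measurable fun w => psiS S (Real.exp w) - (∑ χ ∈ S, dl χ) * Real.exp w
  refine Measurable.sub ?_ (Real.measurable_exp.const_mul _)
  show Measurable fun w => (∑ χ ∈ S, psiC χ (Real.exp w)).re
  exact Complex.measurable_re.comp (Finset.measurable_sum S fun χ _ => Pool.Agent.Q98.HV.psiC_meas χ)

lemma Dl_int (S : Finset (DirichletCharacter ℂ q)) (κ : ℝ) {A B : ℝ} (hAB : A ≤ B) :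
    IntervalIntegrable (fun u => (dat S).Dl κ u ^ 2) volume A B := by
  have hm : Measurable fun u => (dat S).Dl κ u ^ 2 := by
    unfold Dat.Dl
    exact ((by fun_prop : Measurable fun u : ℝ => Real.exp (-(u / 2))).mul
      (((ph_meas S).comp (measurable_id.add_const κ)).sub (ph_meas S))).pow_const 2
  obtain ⟨K, hK⟩ := psiS_bdd S (Real.exp (max B (B + κ)))
  set M : ℝ := ∑ χ ∈ S, dl χ
  have hp : ∀ w : ℝ, w ≤ max B (B + κ) → |(dat S).ph w| ≤ K + |M| * Real.exp (max B (B + κ)) := by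
    intro w hw
    show |psiS S (Real.exp w) - M * Real.exp w| ≤ _
    refine (abs_sub _ _).trans (add_le_add (hK _ (Real.exp_le_exp.2 hw)) ?_)
    rw [abs_mul, abs_of_pos (Real.exp_pos w)]
    exact mul_le_mul_of_nonneg_left (Real.exp_le_exp.2 hw) (abs_nonneg _)
  set R : ℝ := K + |M| * Real.exp (max B (B + κ))
  rw [intervalIntegrable_iff_integrableOn_Ioc_of_le hAB]
  refine Measure.integrableOn_of_bounded (M := (Real.exp (-(A / 2)) * (2 * R)) ^ 2) (by simp) hm.aestronglyMeasurable ?_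
  refine (ae_restrict_iff' measurableSet_Ioc).2 (ae_of_all _ fun u hu => ?_)
  rw [Real.norm_of_nonneg (sq_nonneg _), ← sq_abs]
  refine pow_le_pow_left₀ (abs_nonneg _) ?_ 2
  unfold Dat.Dl
  rw [abs_mul, abs_of_pos (Real.exp_pos _)]
  have h1 := hp (u + κ) ((add_le_add_left hu.2 κ).trans (le_max_right _ _))
  have h2 := hp u (hu.2.trans (le_max_left _ _))
  have h3 : |(dat S).ph (u + κ) - (dat S).ph u| ≤ 2 * R := by
    refine (abs_sub _ _).trans ?_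
    linarith
  exact mul_le_mul (Real.exp_le_exp.2 (by linarith [hu.1])) h3 (abs_nonneg _) (Real.exp_pos _).le

lemma VV_mono (S : Finset (DirichletCharacter ℂ q)) {T b b' : ℝ} (hT : 1 ≤ T) (hb : 0 ≤ b) (hbb : b ≤ b') :
    (dat S).VV T b ≤ (dat S).VV T b' := by
  have hl : 0 ≤ Real.log T := Real.log_nonneg hT
  unfold Dat.VV
  refine mul_le_mul_of_nonneg_left ?_ (by positivity)
  exact intervalIntegral.integral_mono_interval le_rfl (by positivity) (mul_le_mul_of_nonneg_right hbb hl)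
    (ae_of_all _ fun u => sq_nonneg _) (Dl_int S _ (by nlinarith))

/-- GRH from a bound for every `b` -/
theorem grh_of (H : Con) {S : Finset (DirichletCharacter ℂ q)} (hS : InvCl S)
    (h : ∀ b : ℝ, 1 ≤ b → ∃ C : ℝ, ∀ᶠ T : ℝ in atTop, VS S T b ≤ C) : ∀ χ ∈ S, GRH1 χ := by
  refine H.grs q S hS (H.l2u q S fun b hb => ?_)
  obtain ⟨C, hC⟩ := h b hb
  refine ⟨C, ?_⟩
  filter_upwards [hC, eventually_ge_atTop (1 : ℝ)] with T h1 h2
  rwa [VV_eq S h2 (by linarith)]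

theorem grh_of_up (H : Con) {S : Finset (DirichletCharacter ℂ q)} (hS : InvCl S) {η : ℝ} (h : UpS S η) : ∀ χ ∈ S, GRH1 χ := by
  obtain ⟨b0, h1⟩ := h 1 one_pos
  refine grh_of H hS fun b hb => ⟨(S.card + η + 1) * max b b0, ?_⟩
  filter_upwards [h1 (max b b0) (le_max_right _ _), eventually_ge_atTop (1 : ℝ)] with T k1 hT
  refine le_trans ?_ k1
  rw [← VV_eq S hT (by linarith), ← VV_eq S hT (by linarith [le_max_left b b0])]
  exact VV_mono S hT (by linarith) (le_max_left _ _)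

lemma AU_of_up {S : Finset (DirichletCharacter ℂ q)} {η : ℝ} (h : UpS S η) : (dat S).AU η := by
  intro ε hε
  obtain ⟨b0, h1⟩ := h ε hε
  refine ⟨max 1 b0, le_max_left _ _, fun b hb => ?_⟩
  filter_upwards [h1 b ((le_max_right _ _).trans hb), eventually_ge_atTop (1 : ℝ)] with T k1 hT
  rwa [VV_eq S hT (by linarith [(le_max_left 1 b0).trans hb])]

lemma As_of_AL {S : Finset (DirichletCharacter ℂ q)} (h : (dat S).AL) : AsS S := by
  intro ε hε
  obtain ⟨b0, hb0, h1⟩ := h ε hε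
  refine ⟨b0, fun b hb => ?_⟩
  filter_upwards [h1 b hb, eventually_ge_atTop (1 : ℝ)] with T k1 hT
  rwa [VV_eq S hT (by linarith)] at k1

lemma Up_of_As {S : Finset (DirichletCharacter ℂ q)} (h : AsS S) : UpS S 0 := by
  intro ε hε
  obtain ⟨b0, h1⟩ := h ε hε
  refine ⟨b0, fun b hb => ?_⟩
  filter_upwards [h1 b hb] with T k1
  have := (abs_le.1 k1).2
  linarith

lemma EssM_iff (hC : S_CNT) {S : Finset (DirichletCharacter ℂ q)} : (dat S).EssM ↔ EsS S := by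
  unfold Dat.EssM EsS
  refine forall_congr' fun ε => forall_congr' fun _ => exists_congr fun β => and_congr_right fun _ => ?_
  simp only [Pc_PP hC]
  exact Iff.rfl

/-- the sum of the squares of the multiplicities -/
lemma sq_le_PP (hC : S_CNT) {S : Finset (DirichletCharacter ℂ q)} {T β : ℝ} (hβ : 0 ≤ β) {W : Finset ℂ}
    (hW : ∀ s, s ∈ W ↔ s ∈ zer S T) : ∑ s ∈ W, (mS S s : ℝ) ^ 2 ≤ (PP S T β : ℝ) := by
  classical
  have e2 : {p : ℂ × ℂ | p.1 ∈ zer S T ∧ p.2 ∈ zer S T ∧ |p.1.im - p.2.im| * Real.log T / (2 * Real.pi) ≤ β} =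
      ↑((W ×ˢ W).filter (fun p => |p.1.im - p.2.im| * Real.log T / (2 * Real.pi) ≤ β)) := by
    ext p
    rw [Finset.mem_coe, Finset.mem_filter, Finset.mem_product, hW, hW]
    exact ⟨fun h => ⟨⟨h.1, h.2.1⟩, h.2.2⟩, fun h => ⟨h.1.1, h.1.2, h.2⟩⟩
  unfold PP
  rw [e2, finsum_mem_coe_finset]
  push_cast
  have e3 : ∑ s ∈ W, (mS S s : ℝ) ^ 2 = ∑ p ∈ W.image (fun s => (s, s)), (mS S p.1 : ℝ) * mS S p.2 := by
    rw [Finset.sum_image fun a _ b _ h => (Prod.mk.inj h).1]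
    exact Finset.sum_congr rfl fun s _ => sq _
  rw [e3]
  refine Finset.sum_le_sum_of_subset_of_nonneg ?_ fun p _ _ => by positivity
  intro p hp
  obtain ⟨s, hs, rfl⟩ := Finset.mem_image.1 hp
  refine Finset.mem_filter.2 ⟨Finset.mem_product.2 ⟨hs, hs⟩, ?_⟩
  simpa using hβ

lemma Num_fin (hC : S_CNT) {S : Finset (DirichletCharacter ℂ q)} {T : ℝ} {W : Finset ℂ}
    (hW : ∀ s, s ∈ W ↔ s ∈ zer S T) (A : ℂ → Prop) [DecidablePred A] : NumS S A T = ∑ s ∈ W.filter A, mS S s := by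
  unfold NumS
  have e : {s : ℂ | s ∈ zer S T ∧ A s} = ↑(W.filter A) := by
    ext s
    rw [Finset.mem_coe, Finset.mem_filter, hW]
    rfl
  rw [e, finsum_mem_coe_finset]

lemma bad_le (hC : S_CNT) {S : Finset (DirichletCharacter ℂ q)} (hG : (dat S).Good) {K : ℝ}
    (h : ∀ ε : ℝ, 0 < ε → ∃ β : ℝ, 0 < β ∧ ∀ᶠ T : ℝ in atTop, (PP S T β : ℝ) ≤ (S.card + K + ε) * nT T) :
    ∀ ε : ℝ, 0 < ε → ∀ᶠ T : ℝ in atTop, (NumS S (fun s => mS S s ≠ 1) T : ℝ) ≤ (K + ε) * nT T := by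
  classical
  intro ε hε
  obtain ⟨β, hβ, h1⟩ := h (ε / 2) (half_pos hε)
  have hpi := Real.pi_pos
  have h2 : ∀ᶠ T : ℝ in atTop, ((S.card : ℝ) - ε / 2) * nT T ≤ (dat S).Ns T := by
    have h3 := hG.cnt
    have h4 : ((S.card : ℝ) - ε / 2) / (2 * Real.pi) < (dat S).n / (2 * Real.pi) := by
      show ((S.card : ℝ) - ε / 2) / (2 * Real.pi) < (S.card : ℝ) / (2 * Real.pi)
      apply div_lt_div_of_pos_right _ (by positivity)
      linarith
    filter_upwards [h3.eventually (le_mem_nhds h4), eventually_ge_atTop (10 : ℝ)] with T k1 hT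
    have hl : 0 < Real.log T := Real.log_pos (by linarith)
    rw [le_div_iff₀ (by positivity)] at k1
    refine le_trans (le_of_eq ?_) k1
    unfold nT
    field_simp
  filter_upwards [h1, h2, eventually_ge_atTop (10 : ℝ)] with T k1 k2 hT
  set W : Finset ℂ := (zer_fin hC T (S := S)).toFinset with hWd
  have hW : ∀ s, s ∈ W ↔ s ∈ zer S T := fun s => Set.Finite.mem_toFinset _
  rw [Num_fin hC hW]
  have k3 := sq_le_PP hC hβ.le hW
  rw [Ns_eq hC hW] at k2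
  push_cast
  have k4 : ∑ s ∈ W.filter (fun s => mS S s ≠ 1), (mS S s : ℝ) ≤ ∑ s ∈ W, ((mS S s : ℝ) ^ 2 - mS S s) := by
    refine (Finset.sum_le_sum (g := fun s => (mS S s : ℝ) ^ 2 - mS S s) fun s hs => ?_).trans
      (Finset.sum_le_sum_of_subset_of_nonneg (Finset.filter_subset _ _) fun s _ _ => ?_)
    · have h5 := (Finset.mem_filter.1 hs).2
      rcases Nat.lt_or_ge (mS S s) 2 with h6 | h6
      · have : mS S s = 0 := by omega
        rw [this]; simp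
      · have : (2 : ℝ) ≤ mS S s := by exact_mod_cast h6
        nlinarith
    · have : (mS S s : ℝ) ≤ (mS S s : ℝ) ^ 2 := by exact_mod_cast Nat.le_self_pow (by norm_num) _
      linarith
  rw [Finset.sum_sub_distrib] at k4
  have : (K + ε) * nT T = (S.card + K + ε / 2) * nT T - ((S.card : ℝ) - ε / 2) * nT T := by ring
  linarith

lemma N_single (hC : S_CNT) (χ : DirichletCharacter ℂ q) :
    ∀ᶠ T : ℝ in atTop, nT T / 2 ≤ (dat {χ}).Ns (2 * T) - (dat {χ}).Ns T := by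
  have hpi := Real.pi_pos
  have h1 := (hC q {χ}).2
  rw [Finset.card_singleton, Nat.cast_one] at h1
  have h2 : Tendsto (fun T : ℝ => 2 * T) atTop atTop := tendsto_id.const_mul_atTop two_pos
  have hlo : (15 / 16) / (2 * Real.pi) < 1 / (2 * Real.pi) := div_lt_div_of_pos_right (by norm_num) (by positivity)
  have hhi : 1 / (2 * Real.pi) < (17 / 16) / (2 * Real.pi) := div_lt_div_of_pos_right (by norm_num) (by positivity)
  filter_upwards [(h1.comp h2).eventually (le_mem_nhds hlo), h1.eventually (ge_mem_nhds hhi),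
    eventually_ge_atTop (10 : ℝ)] with T k1 k2 hT
  have hl : 0 < Real.log T := Real.log_pos (by linarith)
  have hl2 : Real.log T ≤ Real.log (2 * T) := Real.log_le_log (by linarith) (by linarith)
  have k1' : 15 / 16 / (2 * Real.pi) ≤ (dat {χ}).Ns (2 * T) / (2 * T * Real.log (2 * T)) := k1
  rw [le_div_iff₀ (by have : 0 < Real.log (2 * T) := by linarith
                      positivity)] at k1'
  rw [div_le_iff₀ (by positivity)] at k2
  have e1 : 15 / 16 / (2 * Real.pi) * (2 * T * Real.log T) ≤ (dat {χ}).Ns (2 * T) := by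
    refine le_trans ?_ k1'
    gcongr
  have e2 : 15 / 16 / (2 * Real.pi) * (2 * T * Real.log T) = 15 / 8 * nT T := by unfold nT; field_simp; ring
  have e3 : 17 / 16 / (2 * Real.pi) * (T * Real.log T) = 17 / 16 * nT T := by unfold nT; field_simp
  rw [e2] at e1
  rw [e3] at k2
  have hn := nT_pos hT
  linarith

lemma NC_eq (hC : S_CNT) (χ : DirichletCharacter ℂ q) {T : ℝ} (hT : 0 ≤ T) :
    (NC χ T (2 * T) : ℝ) = (dat {χ}).Ns (2 * T) - (dat {χ}).Ns T := by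
  classical
  set W : Finset ℂ := (zer_fin hC (2 * T) (S := {χ})).toFinset with hWd
  have hW : ∀ s, s ∈ W ↔ s ∈ zer {χ} (2 * T) := fun s => Set.Finite.mem_toFinset _
  set W' : Finset ℂ := (zer_fin hC T (S := {χ})).toFinset with hWd'
  have hW' : ∀ s, s ∈ W' ↔ s ∈ zer {χ} T := fun s => Set.Finite.mem_toFinset _
  rw [Ns_eq hC hW, Ns_eq hC hW']
  have hz : ∀ s t, s ∈ zer {χ} t ↔ LFunction χ s = 0 ∧ 0 < s.re ∧ s.re < 1 ∧ 0 ≤ s.im ∧ s.im ≤ t := by
    intro s t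
    unfold zer
    simp
  have hsub : W' ⊆ W := by
    intro s hs
    rw [hW, hz]
    rw [hW', hz] at hs
    exact ⟨hs.1, hs.2.1, hs.2.2.1, hs.2.2.2.1, hs.2.2.2.2.trans (by linarith)⟩
  have e : {s : ℂ | LFunction χ s = 0 ∧ 0 < s.re ∧ s.re < 1 ∧ T < s.im ∧ s.im ≤ 2 * T} = ↑(W \ W') := by
    ext s
    rw [Finset.mem_coe, Finset.mem_sdiff, hW, hW', hz, hz]
    constructor
    · rintro ⟨h1, h2, h3, h4, h5⟩
      exact ⟨⟨h1, h2, h3, hT.trans h4.le, h5⟩, fun h => absurd h.2.2.2.2 (not_le.2 h4)⟩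
    · rintro ⟨⟨h1, h2, h3, h4, h5⟩, h6⟩
      refine ⟨h1, h2, h3, ?_, h5⟩
      by_contra h7
      exact h6 ⟨h1, h2, h3, h4, not_lt.1 h7⟩
  unfold NC
  rw [e, finsum_mem_coe_finset]
  push_cast
  have e2 : ∀ s, (mS {χ} s : ℝ) = analyticOrderNatAt (LFunction χ) s := by
    intro s
    unfold mS
    rw [Finset.sum_singleton]
  rw [← Finset.sum_sdiff hsub]
  simp only [e2]
  ring

/-- most zeros of each `L(s, χ)` are simple and on the line -/
theorem Q1_of (hC : S_CNT) {S : Finset (DirichletCharacter ℂ q)} (hG : (dat S).Good) (hR : ∀ χ ∈ S, GRH1 χ)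
    (h : ∀ ε : ℝ, 0 < ε → ∀ᶠ T : ℝ in atTop, (NumS S (fun s => mS S s ≠ 1) T : ℝ) ≤ ε * nT T)
    {χ : DirichletCharacter ℂ q} (hχ : χ ∈ S) : ∀ ε : ℝ, 0 < ε → ∀ᶠ T : ℝ in atTop,
      (1 - ε) * (NC χ T (2 * T) : ℝ) ≤ NsC χ T (2 * T) := by
  classical
  intro ε hε
  have hpi := Real.pi_pos
  have h2 : Tendsto (fun T : ℝ => 2 * T) atTop atTop := tendsto_id.const_mul_atTop two_pos
  filter_upwards [h2.eventually (h (ε / 8) (by positivity)), N_single hC χ, eventually_ge_atTop (10 : ℝ)] with T k1 k2 hT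
  have k1' : (NumS S (fun s => mS S s ≠ 1) (2 * T) : ℝ) ≤ ε / 8 * nT (2 * T) := k1
  set W : Finset ℂ := (zer_fin hC (2 * T) (S := S)).toFinset with hWd
  have hW : ∀ s, s ∈ W ↔ s ∈ zer S (2 * T) := fun s => Set.Finite.mem_toFinset _
  rw [Num_fin hC hW] at k1'
  rw [← NC_eq hC χ (by linarith)] at k2
  set D : Finset ℂ := W.filter (fun s => LFunction χ s = 0 ∧ T < s.im) with hD
  have eD : {s : ℂ | LFunction χ s = 0 ∧ 0 < s.re ∧ s.re < 1 ∧ T < s.im ∧ s.im ≤ 2 * T} = ↑D := by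
    ext s
    rw [hD, Finset.mem_coe, Finset.mem_filter, hW]
    constructor
    · rintro ⟨h1, h2, h3, h4, h5⟩
      exact ⟨⟨⟨χ, hχ, h1⟩, h2, h3, by linarith, h5⟩, h1, h4⟩
    · rintro ⟨⟨-, h2, h3, -, h5⟩, h1, h4⟩
      exact ⟨h1, h2, h3, h4, h5⟩
  have eN : NC χ T (2 * T) = ∑ s ∈ D, analyticOrderNatAt (LFunction χ) s := by
    unfold NC
    rw [eD, finsum_mem_coe_finset]
  have eS : NsC χ T (2 * T) = (D.filter (fun s => analyticOrderNatAt (LFunction χ) s = 1)).card := by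
    unfold NsC
    rw [← Set.ncard_coe_finset]
    congr 1
    ext s
    rw [Finset.mem_coe, Finset.mem_filter, ← Finset.mem_coe, ← eD]
    constructor
    · rintro ⟨h1, h2, h3, h4, h5⟩
      refine ⟨⟨h1, ?_, ?_, h3, h4⟩, h5⟩
      · rw [h2]; norm_num
      · rw [h2]; norm_num
    · rintro ⟨⟨h1, h2, h3, h4, h5⟩, h6⟩
      exact ⟨h1, hR χ hχ s h1 h2 h3, h4, h5, h6⟩
  have key : (NC χ T (2 * T) : ℝ) ≤ NsC χ T (2 * T) + ((∑ s ∈ W.filter (fun s => mS S s ≠ 1), mS S s : ℕ) : ℝ) := by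
    rw [eN, eS]
    rw [← Finset.sum_filter_add_sum_filter_not D (fun s => analyticOrderNatAt (LFunction χ) s = 1)]
    push_cast
    refine add_le_add ?_ ?_
    · rw [Finset.sum_congr rfl (g := fun _ => (1 : ℝ)) fun s hs => by rw [(Finset.mem_filter.1 hs).2]; simp]
      simp
    · refine (Finset.sum_le_sum (g := fun s => (mS S s : ℝ)) fun s hs => ?_).trans
        (Finset.sum_le_sum_of_subset_of_nonneg ?_ fun s _ _ => by positivity)
      · exact_mod_cast Finset.single_le_sum (f := fun χ => analyticOrderNatAt (LFunction χ) s) (fun _ _ => Nat.zero_le _) hχ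
      · intro s hs
        obtain ⟨h3, h4⟩ := Finset.mem_filter.1 hs
        obtain ⟨h5, h6⟩ := Finset.mem_filter.1 h3
        refine Finset.mem_filter.2 ⟨h5, ?_⟩
        have h7 := (hW s).1 h5
        have h8 : 1 ≤ analyticOrderNatAt (LFunction χ) s := hG.mu_pos ⟨⟨χ, hχ⟩, ⟨s, h6.1, h7.2.1, h7.2.2.1⟩⟩
        have h9 : analyticOrderNatAt (LFunction χ) s ≤ mS S s :=
          Finset.single_le_sum (f := fun χ => analyticOrderNatAt (LFunction χ) s) (fun _ _ => Nat.zero_le _) hχ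
        omega
  have hn := nT_pos hT
  have hl : 0 < Real.log T := Real.log_pos (by linarith)
  have k5 : nT (2 * T) ≤ 4 * nT T := by
    unfold nT
    have h3 : Real.log (2 * T) ≤ 2 * Real.log T := by
      rw [Real.log_mul two_ne_zero (by linarith)]
      have : Real.log 2 ≤ Real.log T := Real.log_le_log two_pos (by linarith)
      linarith
    have e4 : 4 * (T * Real.log T / (2 * Real.pi)) = 2 * T * (2 * Real.log T) / (2 * Real.pi) := by ring
    rw [e4]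
    gcongr
  have k6 : ε / 8 * nT (2 * T) ≤ ε * (NC χ T (2 * T) : ℝ) := by
    have h3 : ε / 8 * nT (2 * T) ≤ ε / 8 * (4 * nT T) := mul_le_mul_of_nonneg_left k5 (by positivity)
    have h4 : ε / 8 * (4 * nT T) = ε * (nT T / 2) := by ring
    have h5 : ε * (nT T / 2) ≤ ε * (NC χ T (2 * T) : ℝ) := mul_le_mul_of_nonneg_left k2 hε.le
    linarith
  linarith

/-- **the theorem** -/
theorem gx_main (A : Abs) (H : Con) (S : Finset (DirichletCharacter ℂ q)) (hS : InvCl S) :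
    ((∀ χ ∈ S, GRH1 χ) ↔ ∃ C : ℝ, ∀ b : ℝ, 1 ≤ b → ∀ᶠ T : ℝ in atTop, VS S T b ≤ C * b) ∧
    (∀ η : ℝ, 0 ≤ η → UpS S η → (∀ χ ∈ S, GRH1 χ) ∧
      (∀ ε : ℝ, 0 < ε → ∃ β : ℝ, 0 < β ∧ ∀ᶠ T : ℝ in atTop, (PP S T β : ℝ) ≤ (S.card + 9 / 4 * η + ε) * nT T) ∧
      ∀ ε : ℝ, 0 < ε → ∀ᶠ T : ℝ in atTop, (NumS S (fun s => mS S s ≠ 1) T : ℝ) ≤ (9 / 4 * η + ε) * nT T) ∧
    (UpS S 0 ↔ (∀ χ ∈ S, GRH1 χ) ∧ EsS S) ∧ (AsS S ↔ (∀ χ ∈ S, GRH1 χ) ∧ EsS S) ∧
    (UpS S 0 → ∀ χ ∈ S, ∀ ε : ℝ, 0 < ε → ∀ᶠ T : ℝ in atTop, (1 - ε) * (NC χ T (2 * T) : ℝ) ≤ NsC χ T (2 * T)) := by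
  have good : (∀ χ ∈ S, GRH1 χ) → (dat S).Good := H.sum q S hS
  have crude : (∀ χ ∈ S, GRH1 χ) → (dat S).Crude := H.cru q S hS
  have p2 : ∀ η : ℝ, 0 ≤ η → UpS S η → (∀ χ ∈ S, GRH1 χ) ∧
      (∀ ε : ℝ, 0 < ε → ∃ β : ℝ, 0 < β ∧ ∀ᶠ T : ℝ in atTop, (PP S T β : ℝ) ≤ (S.card + 9 / 4 * η + ε) * nT T) ∧
      ∀ ε : ℝ, 0 < ε → ∀ᶠ T : ℝ in atTop, (NumS S (fun s => mS S s ≠ 1) T : ℝ) ≤ (9 / 4 * η + ε) * nT T := by
    intro η hη h
    have hR := grh_of_up H hS h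
    have hp : ∀ ε : ℝ, 0 < ε → ∃ β : ℝ, 0 < β ∧ ∀ᶠ T : ℝ in atTop, (PP S T β : ℝ) ≤ (S.card + 9 / 4 * η + ε) * nT T := by
      intro ε hε
      obtain ⟨β, hβ, h1⟩ := ab_pairs A (good hR) (crude hR) hη (AU_of_up h) ε hε
      refine ⟨β, hβ, ?_⟩
      filter_upwards [h1] with T k1
      rw [Pc_PP H.cnt]
      exact k1
    exact ⟨hR, hp, bad_le H.cnt (good hR) hp⟩
  have p3 : (∀ χ ∈ S, GRH1 χ) ∧ EsS S → AsS S := fun h =>
    As_of_AL (ab_AL A (good h.1) (crude h.1) ((EssM_iff H.cnt).2 h.2))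
  have p4 : UpS S 0 → (∀ χ ∈ S, GRH1 χ) ∧ EsS S := by
    intro h
    have hR := grh_of_up H hS h
    exact ⟨hR, (EssM_iff H.cnt).1 (ab_ess A (good hR) (crude hR) (AU_of_up h))⟩
  refine ⟨⟨fun hR => ?_, fun h => ?_⟩, p2, ⟨p4, fun h => Up_of_As (p3 h)⟩, ⟨fun h => p4 (Up_of_As h), p3⟩, fun h χ hχ => ?_⟩
  · obtain ⟨C, hC, h1⟩ := ab_bdd A (good hR) (crude hR)
    refine ⟨C, fun b hb => ?_⟩
    filter_upwards [h1 b hb, eventually_ge_atTop (1 : ℝ)] with T k1 hT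
    rwa [VV_eq S hT (by linarith)] at k1
  · obtain ⟨C, h1⟩ := h
    exact grh_of H hS fun b hb => ⟨C * b, h1 b hb⟩
  · obtain ⟨hR, -, h3⟩ := p2 0 le_rfl h
    refine Q1_of H.cnt (good hR) hR (fun ε hε => ?_) hχ
    filter_upwards [h3 ε hε] with T k1
    refine k1.trans (le_of_eq ?_)
    ring

end Pool.Agent.Q260.GX
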