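import Pool.Agent.Q260.GX.Defs

set_option autoImplicit false

/-!
# Project GX: the statements of the abstract part

Each job carries a file (or a few files) of `Pool/Agent/Q260/GM` over from `zeta` to `G : Dat` with `G.Good` (`Defs.lean`): `RiemannHypothesis`, `L2psi` become
`G.Good`; `∑ s ∈ ZZ T, mm s * ..s.im..` becomes `∑ i ∈ G.FZ T, G.mu i * ..G.ga i..`; `∫ x, ra a x ∂(Mp T)` becomes `G.RR a T` (see `GM.QQ_eq`, `Xa.lean`); the degree `1` becomes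
`G.n`, so `(1/a - 1)/4` becomes `(n/a - n²)/4`. Everything in `GM` which does not mention `zeta` or zeros can be used as it is.
-/

namespace Pool.Agent.Q260.GX

open MeasureTheory Filter Topology Set Complex
open Pool.Agent.Y23 (Lg one_le_Lg)
open Pool.Agent.Y749.Rig (nT)
open Pool.Agent.Q260.GM (pk sx LL kk h0 kT)

/-- JOB PM (`Ta.lean`, `Tb.lean`, `Tc.lean`, `Td.lean`). The mean square of `Re F'/F` and the pairs. Remarks. `{i | 0 ≤ ga i ≤ T}` is finite by `zs` (at `t = 0`, `mu_pos`), so `i ∈ FZ T ↔ 0 ≤ ga i ∧ ga i ≤ T`. `∫ PT T x² = π/2 QQ x T = T log² T / 4 RR a T` for `x = a / log T` (as `PT_sq`, `PT_pair`).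
`Crude` gives `RR a T ≤ R` for `a ∈ [a1, a2]` also if `a2 > 1`: `4x/(4x²+v²) ≤ (x/x1) 4x1/(4x1²+v²)` for `x ≥ x1`. In `delta_int` the approximation is `n log T / 2 - PT T x t` with `13` replaced by `A` of `ldp`. `cnt` replaces `NZ_asymp`. -/
def S_PM : Prop := ∀ G : Dat, G.Good → G.Crude → ∀ a1 a2 ε : ℝ, 0 < a1 → a1 ≤ a2 → 0 < ε → ∀ᶠ T : ℝ in atTop, ∀ a ∈ Icc a1 a2,
  |(∫ t in (0 : ℝ)..T, G.DD (a / Real.log T) t ^ 2) - T * Real.log T ^ 2 / 4 * (G.RR a T - G.n ^ 2)| ≤ ε * (T * Real.log T ^ 2)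

/-- JOB T1a (`Ua.lean`, `Uc.lean`; `Ub.lean` is used as it is). `Good.lap` is `lap_int`, with the factor `m`, `|m| ≤ 1`, at the term `Es`. -/
def S_T1a : Prop := ∀ G : Dat, G.Good → ∃ C : ℝ, 0 < C ∧ ∀ κ x : ℝ, 0 < κ → κ ≤ 1 / 2 → 0 < x → x ≤ 1 / 4 →
  |G.SS κ x - 1 / Real.pi * ∫ t, (h0 κ t * G.DD x t) ^ 2| ≤ C / x ^ 2 * κ ^ (5 / 4 : ℝ)

/-- JOB TL (`Va.lean`, `Vb.lean`, and `ev_gen` of `Vf.lean`; from `S_PM`). -/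
def S_TL : Prop := ∀ G : Dat, G.Good → G.Crude → ∀ a1 a2 : ℝ, 0 < a1 → a1 ≤ a2 →
  ∃ C : ℝ, 0 < C ∧ ∀ᶠ κ : ℝ in 𝓝[>] 0, 0 < κ ∧ κ ≤ 1 ∧ 1 ≤ LL κ ∧ ∀ a ∈ Icc a1 a2,
    Continuous (G.gd κ a) ∧ Integrable (fun y => G.gd κ a y / (1 + y ^ 2)) ∧
    (∀ Y : ℝ, 0 ≤ Y → Y ≤ 1 / κ ^ 2 →
      ∫ y in Ioi Y, G.gd κ a y / (1 + y ^ 2) ≤ C * (1 / (1 + Y) + Real.sqrt κ)) ∧
    ∀ Y : ℝ, 0 ≤ Y → Y ≤ 1 / κ ^ 2 → ∫ y in (0 : ℝ)..Y, G.gd κ a y ≤ C * (1 + Y)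

/-- JOB T1b (`Vc.lean`; from `S_T1a`, `S_TL`): the fundamental relation and the crude bound for `SS`. -/
def S_T1b : Prop := ∀ G : Dat, G.Good → G.Crude → ∀ a1 a2 : ℝ, 0 < a1 → a1 ≤ a2 →
  (∀ ε : ℝ, 0 < ε → ∀ᶠ κ : ℝ in 𝓝[>] 0, ∀ a ∈ Icc a1 a2,
    |G.SS κ (a / LL κ) - 2 / Real.pi * (κ * LL κ ^ 2 * G.KI (kk 1) κ a)| ≤ ε * (κ * LL κ ^ 2)) ∧
  ∃ C : ℝ, 0 < C ∧ ∀ᶠ κ : ℝ in 𝓝[>] 0, ∀ a ∈ Icc a1 a2, G.SS κ (a / LL κ) ≤ C * (κ * LL κ ^ 2)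

/-- JOB LOC (`Xa.lean`; from `S_PM`): the local lower bound. -/
def S_LOC : Prop := ∀ G : Dat, G.Good → G.Crude → ∀ a Y1 Y2 δ : ℝ, 0 < a → 0 < Y1 → Y1 < Y2 → 0 < δ → ∀ᶠ κ : ℝ in 𝓝[>] 0,
  (G.n / a - G.n ^ 2) / 4 * (Y2 - Y1) - δ ≤ ∫ y in Y1..Y2, G.gd κ a y

/-- JOB KIL (`KI_low` of `Xb.lean`; `riemann_low` is used as it is; from `S_TL`, `S_LOC`). -/
def S_KIL : Prop := ∀ G : Dat, G.Good → G.Crude → ∀ (a : ℝ) (f : ℝ → ℝ) (B ε : ℝ), 0 < a → a * G.n ≤ 1 → Continuous f → (∀ y, 0 ≤ f y) →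
  (∀ y, f y ≤ B * (1 / (1 + y ^ 2))) → IntegrableOn f (Ioi 0) → 0 < ε →
  ∀ᶠ κ : ℝ in 𝓝[>] 0, (G.n / a - G.n ^ 2) / 4 * (∫ y in Ioi (0 : ℝ), f y) - ε ≤ G.KI f κ a

/-- JOB SSAV (`SS_av` of `Xc.lean`; from `S_T1b`). Here the averaged bound is for the integral over `(0, b L)`, so the part of the proof for `(0, L)` is not needed. -/
def S_SSAV : Prop := ∀ G : Dat, G.Good → G.Crude → ∀ η ε : ℝ, 0 ≤ η → G.AUk η → 0 < ε → ∃ a0 : ℝ, 0 < a0 ∧ ∀ a : ℝ, 0 < a → a ≤ a0 →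
  ∀ᶠ κ : ℝ in 𝓝[>] 0, G.SS κ (a / LL κ) ≤ (G.n + η + ε) / (2 * a) * (κ * LL κ ^ 2)

/-- JOB RAV (`Xd.lean`; from `S_PM`, `S_TL`, `S_T1b`, `S_LOC`, `S_SSAV`). Constants: `KI (kk 1) κ a ≤ π (n+η+ε) / (4a)`, `sin² 1 (∫_0^2 gd - 2 (n/a - n²)/4) ≤ π (η+ε) / (4a) + π n² / 4 + ..`, `sin² 1 ≥ 2π/9`,
`1/2 n² + ∫_0^2 gd ≈ RR / 2` at `T = 2/κ`; so `a RR ≤ n + 9/4 (η + ε) + O(a)`. (`R_lip`, `Wa.lean`, to be proved for `RR` from `Crude`; for sums: `|K_x - K_x'| ≤ C |x - x'| / x1 K_x1` termwise.) -/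
def S_RAV : Prop := ∀ G : Dat, G.Good → G.Crude → ∀ η ε : ℝ, 0 ≤ η → G.AUk η → 0 < ε → ∃ a0 : ℝ, 0 < a0 ∧ ∀ a : ℝ, 0 < a → a ≤ a0 →
  ∀ᶠ T : ℝ in atTop, a * G.RR a T ≤ G.n + 9 / 4 * η + ε

/-- JOB PAIR (`pairs_of_R`, `R_of_pairs` of `Xe.lean`). `RR a T = (nT T)⁻¹ ∑∑ mu mu' ra a (v log T / 2π)`, `ra a x = 4a/(4a²+4π²x²)`. -/
def S_PAIR : Prop := ∀ G : Dat, G.Good → G.Crude →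
  (∀ K : ℝ, 0 ≤ K → (∀ ε : ℝ, 0 < ε → ∃ a0 : ℝ, 0 < a0 ∧ ∀ a : ℝ, 0 < a → a ≤ a0 → ∀ᶠ T : ℝ in atTop, a * G.RR a T ≤ K + ε) →
    ∀ ε : ℝ, 0 < ε → ∃ β : ℝ, 0 < β ∧ ∀ᶠ T : ℝ in atTop, G.Pc β T ≤ (K + ε) * nT T) ∧
  (∀ K β : ℝ, 0 < β → (∀ᶠ T : ℝ in atTop, G.Pc β T ≤ K * nT T) → ∀ ε : ℝ, 0 < ε → ∃ a0 : ℝ, 0 < a0 ∧ ∀ᶠ T : ℝ in atTop, ∀ a : ℝ, 0 < a → a ≤ a0 →
    a * G.RR a T ≤ K + ε)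

/-- JOB SSR (`Xf.lean`, `Xg.lean`; from `S_PM`, `S_TL`, `S_T1b`, `S_KIL`): upper bound for the primes from the pair sums. -/
def S_SSR : Prop := ∀ G : Dat, G.Good → G.Crude → ∀ K a0 : ℝ, G.n ≤ K → (∀ᶠ T : ℝ in atTop, ∀ a : ℝ, 0 < a → a ≤ a0 → a * G.RR a T ≤ K) →
  ∀ a ε : ℝ, 0 < a → a * G.n ≤ 1 → 3 * a ≤ a0 → 0 < ε → ∀ᶠ κ : ℝ in 𝓝[>] 0, G.SS κ (a / LL κ) ≤
    ((G.n / a - G.n ^ 2) / 2 + 5 * (K - G.n) / (4 * a) + ε) * (κ * LL κ ^ 2)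

/-- JOB AV (`Xh.lean`, and `SS_low` of `Xb.lean`, `crude` of `Xi.lean`; from `S_T1b`, `S_KIL`, `S_PAIR`, `S_SSR`): the asymptotic formula, and the crude bound for the primes. -/
def S_AV : Prop := ∀ G : Dat, G.Good → G.Crude →
  (G.EssM → ∀ ε : ℝ, 0 < ε → ∃ b0 : ℝ, 1 ≤ b0 ∧ ∀ b : ℝ, b0 ≤ b → ∀ᶠ κ : ℝ in 𝓝[>] 0,
    (G.n - ε) * b * (κ * LL κ ^ 2) ≤ ∫ u in (0 : ℝ)..(b * LL κ), G.Dl κ u ^ 2 ∧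
    ∫ u in (0 : ℝ)..(b * LL κ), G.Dl κ u ^ 2 ≤ (G.n + ε) * b * (κ * LL κ ^ 2)) ∧
  ∃ C : ℝ, 0 < C ∧ ∀ b : ℝ, 1 ≤ b → ∀ᶠ κ : ℝ in 𝓝[>] 0, ∫ u in (0 : ℝ)..(b * LL κ), G.Dl κ u ^ 2 ≤ C * b * (κ * LL κ ^ 2)

/-- JOB KT (`Xi.lean`: `k_of_T`, `T_of_k_up`, `T_of_k_low`, `AUk_of_AU`): from `κ` to `T`, with the integrals from `0`. `kT T = log (1 + 1/T)`, `log T ≤ LL (kT T) ≤ log T + 1/T` (`GM.LL_kT`), `GM.norm_lim`; `κ = kT (Tk κ)`. `Dl κ u ²` is interval integrable: measurable,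
and by `Good.l2`. -/
def S_KT : Prop := ∀ G : Dat, G.Good →
  (∀ η : ℝ, 0 ≤ η → G.AU η → G.AUk η) ∧
  ((∀ ε : ℝ, 0 < ε → ∃ b0 : ℝ, 1 ≤ b0 ∧ ∀ b : ℝ, b0 ≤ b → ∀ᶠ κ : ℝ in 𝓝[>] 0,
    (G.n - ε) * b * (κ * LL κ ^ 2) ≤ ∫ u in (0 : ℝ)..(b * LL κ), G.Dl κ u ^ 2 ∧
    ∫ u in (0 : ℝ)..(b * LL κ), G.Dl κ u ^ 2 ≤ (G.n + ε) * b * (κ * LL κ ^ 2)) → G.AL) ∧
  ((∃ C : ℝ, 0 < C ∧ ∀ b : ℝ, 1 ≤ b → ∀ᶠ κ : ℝ in 𝓝[>] 0, ∫ u in (0 : ℝ)..(b * LL κ), G.Dl κ u ^ 2 ≤ C * b * (κ * LL κ ^ 2)) →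
    ∃ C : ℝ, 0 < C ∧ ∀ b : ℝ, 1 ≤ b → ∀ᶠ T : ℝ in atTop, G.VV T b ≤ C * b)

end Pool.Agent.Q260.GX
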