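import Pool.Agent.Q260.GX.Spec
import Pool.Agent.Q253.HV.All

set_option autoImplicit false

/-!
# Project GX: the statements of the concrete part (products of Dirichlet L-functions)

`S` is a finite set of characters modulo `q`, closed under complex conjugation; `F = ∏_{χ ∈ S} L(s, χ)`. For `S` the set of all characters modulo `q`
the sum `psiS S x` is `φ(q) ψ(x; q, 1)`. The tools for single characters of project HV (`Pool/Agent/Q253/HV`, theorems `a_GR`, `a_BG`, `a_SY`, ... in `All.lean`) are available.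
-/

namespace Pool.Agent.Q260.GX

open MeasureTheory Filter Topology Set Complex
open Pool.Agent.Y23 (Lg one_le_Lg)
open Pool.Agent.Y749.Rig (nT)
open Pool.Agent.Q260.GM (pk sx LL kk h0 kT)
open DirichletCharacter (LFunction)
open Pool.Agent.Q253.HV (psiC lap Adm)

/-- the nontrivial zeros of `L(s, χ)` -/
abbrev ZC {q : ℕ} [NeZero q] (χ : DirichletCharacter ℂ q) : Type :=
  {s : ℂ // LFunction χ s = 0 ∧ 0 < s.re ∧ s.re < 1}

open Classical in
/-- `1` for the principal character, `0` for the others -/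
noncomputable def dl {q : ℕ} (χ : DirichletCharacter ℂ q) : ℝ := if χ = 1 then 1 else 0

/-- nonempty and closed under complex conjugation -/
def InvCl {q : ℕ} (S : Finset (DirichletCharacter ℂ q)) : Prop := S.Nonempty ∧ ∀ χ ∈ S, χ⁻¹ ∈ S

/-- `∑_{χ ∈ S} ψ(x, χ)` (real for `S` closed under conjugation) -/
noncomputable def psiS {q : ℕ} (S : Finset (DirichletCharacter ℂ q)) (x : ℝ) : ℝ := (∑ χ ∈ S, psiC χ x).re

/-- the generalised Riemann hypothesis for `χ` -/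
def GRH1 {q : ℕ} [NeZero q] (χ : DirichletCharacter ℂ q) : Prop :=
  ∀ s : ℂ, LFunction χ s = 0 → 0 < s.re → s.re < 1 → s.re = 1 / 2

/-- the data -/
noncomputable def dat {q : ℕ} [NeZero q] (S : Finset (DirichletCharacter ℂ q)) : Dat where
  ι := Σ χ : {χ : DirichletCharacter ℂ q // χ ∈ S}, ZC χ.1
  mu i := analyticOrderNatAt (LFunction i.1.1) i.2.1
  ga i := i.2.1.im
  n := S.card
  m := ∑ χ ∈ S, dl χ
  ph w := psiS S (Real.exp w) - (∑ χ ∈ S, dl χ) * Real.exp w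
  LD s := ∑ χ ∈ S, deriv (LFunction χ) s / LFunction χ s

/-- JOB ADM. For `χ ≠ 1`: `a_BG`, `a_GR` (`Re s > 1/2` zero free: zeros with `Re s ≥ 1` are excluded by Mathlib, `LFunction_ne_zero_of_one_le_re`). For `χ = 1`: `GRH1 χ` gives `RiemannHypothesis` (`a_SY` style, `L(s, 1) = ζ(s) ∏_{p | q} (1 - p^(-s))`),
`psiC 1 x - ψ(x)` is `O(log q log x)` (`S_CL`, `Pool/Agent/Q253/HV/CL.lean`), `ψ(e^t) - e^t` is `Adm` by `Q296.GM` (`L2_of_rh`), and the transform is known for `Re s > 1` (or `Q213.GM.FF_val` for zeta, and the finitely many Euler factors) and analytic for `Re s > 1/2`. -/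
def S_ADM : Prop := ∀ (q : ℕ) [NeZero q] (χ : DirichletCharacter ℂ q), GRH1 χ →
  Adm (fun t => psiC χ (Real.exp t) - dl χ * Real.exp t) ∧ ∀ s : ℂ, 1 / 2 < s.re → s ≠ 1 →
    LFunction χ s ≠ 0 ∧ lap (fun t => psiC χ (Real.exp t) - dl χ * Real.exp t) s = -(deriv (LFunction χ) s / LFunction χ s) / s - dl χ / (s - 1)

/-- JOB LAPd (from `S_ADM`): the fields `phm`, `l2`, `lap` of `Good` for `dat S`. As `Q213/GM/Laplace.lean`: `psiC χ (e^w) = 0` for `w ≤ 1/2`; `InvCl` makes the sum over `S` real, so `(ph w : ℂ)` is the sum of the functions of `S_ADM`. -/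
def S_LAPd : Prop := ∀ (q : ℕ) [NeZero q] (S : Finset (DirichletCharacter ℂ q)), InvCl S → (∀ χ ∈ S, GRH1 χ) →
  Measurable (dat S).ph ∧ (∀ θ : ℝ, 1 < θ → IntegrableOn (fun w => (dat S).ph w ^ 2 * Real.exp (-(θ * w))) (Ioi 0)) ∧
  ∀ κ x t : ℝ, 0 < κ → κ ≤ 1 / 2 → 0 < x → x ≤ 1 / 4 →
    IntegrableOn (fun u : ℝ => ((dat S).Dl κ u : ℂ) * cexp (-((x + t * I) * u))) (Ioi 0) ∧
    ∫ u in Ioi (0 : ℝ), ((dat S).Dl κ u : ℂ) * cexp (-((x + t * I) * u)) =
      -((cexp (κ * sx x t) - 1) / sx x t) * (dat S).LD (sx x t) - (dat S).m * ((cexp κ - 1) / (sx x t - 1))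

/-- JOB POI: an entire function of order less than two, symmetric with respect to the imaginary axis, with all zeros on it. Proof: polynomials `Q_N → X` with all roots on the imaginary axis, as in `Pool/Agent/Q68/HV/ZG.lean`.
For a polynomial, `v = t - Im r`: `Re Q'/Q (x+it) = ∑ x/(x²+v²)` and `|Q'/Q (x+it) - Q'/Q (1+it)| ≤ ∑ 1/(√(x²+v²) √(1+v²)) ≤ (1/x) ∑ 1/(1+v²)`. Limit: in a bounded region the roots of `Q_N` converge to the zeros of `X` with multiplicity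
(Hurwitz; or: if `X = ∏ (z - ρ)^m · Y` with `Y ≠ 0` on a disc, argue with finitely many zeros: divide `Q_N` by the polynomial of its nearest roots; see the counting lemmas for limits in the library), which gives `∑_{finitely many} ≤ Re X'/X`; for the upper bound the roots with `|Im r| > R` contribute at most
`x (1 + δ_R) ∑ 1/(1+r²) ≤ x (1 + δ_R) Re Q_N'/Q_N (1)`. -/
def S_POI : Prop := ∀ X : ℂ → ℂ, Differentiable ℂ X →
  (∀ z : ℂ, X (-((starRingEnd ℂ) z)) = (starRingEnd ℂ) (X z)) → (∃ z, X z ≠ 0) →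
  (∃ K : ℝ, 0 < K ∧ ∀ z : ℂ, ‖X z‖ ≤ Real.exp (K * (1 + ‖z‖) ^ (3 / 2 : ℝ))) → (∀ s : ℂ, X s = 0 → s.re = 0) →
  (Summable fun ρ : {z : ℂ // X z = 0} => (analyticOrderNatAt X ρ : ℝ) * (1 / (1 + (ρ : ℂ).im ^ 2))) ∧
  ∃ c : ℝ, 0 ≤ c ∧ ∀ x t : ℝ, 0 < x → x ≤ 1 →
    ∑' ρ : {z : ℂ // X z = 0}, (analyticOrderNatAt X ρ : ℝ) * pk x (t - (ρ : ℂ).im) ≤ (logDeriv X ⟨x, t⟩).re ∧
    (logDeriv X ⟨x, t⟩).re ≤ (∑' ρ : {z : ℂ // X z = 0}, (analyticOrderNatAt X ρ : ℝ) * pk x (t - (ρ : ℂ).im)) + c * x ∧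
    ‖logDeriv X ⟨x, t⟩ - logDeriv X ⟨1, t⟩‖ ≤ 4 / x * (logDeriv X ⟨1, t⟩).re

/-- the facts for a single character -/
structure Chi {q : ℕ} [NeZero q] (χ : DirichletCharacter ℂ q) : Prop where
  zs : ∀ t : ℝ, Summable fun ρ : ZC χ => (analyticOrderNatAt (LFunction χ) ρ : ℝ) * (1 / (1 + ((ρ : ℂ).im - t) ^ 2))
  zl : ∃ K : ℝ, 0 < K ∧ ∀ t : ℝ, ∑' ρ : ZC χ, (analyticOrderNatAt (LFunction χ) ρ : ℝ) * (1 / (1 + ((ρ : ℂ).im - t) ^ 2)) ≤ K * Lg t
  ldc : ∀ x : ℝ, 0 < x → x ≤ 1 / 4 → Continuous fun t : ℝ => deriv (LFunction χ) (sx x t) / LFunction χ (sx x t)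
  ldb : ∃ C : ℝ, 0 < C ∧ ∀ x : ℝ, 0 < x → x ≤ 1 / 4 → ∀ t : ℝ, ‖deriv (LFunction χ) (sx x t) / LFunction χ (sx x t)‖ ≤ C * Lg t / x
  ldp : ∃ A : ℝ, 1 ≤ A ∧ ∀ x : ℝ, 0 < x → x ≤ 1 / 4 → ∀ t : ℝ, 1 ≤ |t| →
    |-(deriv (LFunction χ) (sx x t) / LFunction χ (sx x t)).re - (Real.log |t| / 2 -
      ∑' ρ : ZC χ, (analyticOrderNatAt (LFunction χ) ρ : ℝ) * pk x (t - (ρ : ℂ).im))| ≤ A

/-- JOB CHP (from `S_POI`): primitive characters of modulus `N > 1`. `X = Pool.Agent.Q119.HV.X ψ` (`Zdb.lean`: `X_diff`, `X_sym`, `X_growth`, `X_eq`, `logDeriv_X`); its zeros are `ρ - 1/2` with the same multiplicities. `Re X'/X (1+it) = O(Lg t)` because `L'/L (3/2+it)` is bounded and `digam` (`Zda.lean`); this gives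
`zl` (`pk 1 v = 1/(1+v²)`) and, with the third part of `S_POI`, `ldb`. For `ldp` Stirling with bounded error: `digamma_ext` in `Pool/Agent/H370R2/DirGood.lean`. -/
def S_CHP : Prop := ∀ (N : ℕ) [NeZero N] (ψ : DirichletCharacter ℂ N), 1 < N → ψ.IsPrimitive → GRH1 ψ → Chi ψ

/-- JOB CH1: the Riemann zeta function (`LFunction_modOne_eq`). `zs`, `zl`: `Pool.Agent.Y23` (`zsummable`, `zsum_le`); the others: `Pool/Agent/Q260/GM/Zl3.lean` (`LD_cont`, `LD_bound`, `DD_approx`, `Zl2.Pz_eq`). -/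
def S_CH1 : Prop := ∀ χ : DirichletCharacter ℂ 1, GRH1 χ → Chi χ

/-- JOB CHI (from `S_CHP`, `S_CH1`): all characters. `L(s, χ) = L(s, χ*) ∏_{p | q} (1 - χ*(p) p^(-s))` (`LFunction_changeLevel`); the Euler factors have no zeros and bounded logarithmic derivatives for `Re s ≥ 1/2` (`logDeriv_factor` in `Pool/Agent/Q119/HV/Zd.lean`, whose proof of `t_ZD` makes the same reduction),
the zeros in the strip and their multiplicities are the same (`Pool/Agent/Q162/HV/SY.lean`: `level_iff`). -/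
def S_CHI : Prop := ∀ (q : ℕ) [NeZero q] (χ : DirichletCharacter ℂ q), GRH1 χ → Chi χ

/-- JOB CNT: the number of zeros. For primitive characters: `H370.nn_asymp` (`Pool/Agent/H370R2/Count.lean`; dyadic intervals) with `good_dirichlet` (`DirGood.lean`), summed over `T/2^k`; zeros with `0 ≤ Im ≤ 1` are finitely many; imprimitive characters have the same zeros in the strip; sum over `χ ∈ S`. -/
def S_CNT : Prop := ∀ (q : ℕ) [NeZero q] (S : Finset (DirichletCharacter ℂ q)),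
  (∀ T : ℝ, {i : (dat S).ι | |(dat S).ga i| ≤ T}.Finite) ∧
  Tendsto (fun T => (dat S).Ns T / (T * Real.log T)) atTop (𝓝 ((S.card : ℝ) / (2 * Real.pi)))

/-- JOB SUM (from `S_LAPd`, `S_CHI`, `S_CNT`): the hypotheses of the abstract part. Sums over the sigma type are sums over `χ ∈ S` of the sums for `χ`; `lde`: `L(conj s, χ⁻¹) = conj L(s, χ)` (`H370`, `LFunction_conj` in `DirGood.lean`); `Chi` is needed at all `t`, `mu_pos`: order of a zero of a function which is not identically zero. -/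
def S_SUM : Prop := ∀ (q : ℕ) [NeZero q] (S : Finset (DirichletCharacter ℂ q)), InvCl S → (∀ χ ∈ S, GRH1 χ) → (dat S).Good

/-- JOB CRU: the crude bound for the pairs. For primitive `χ`: `H370.pair_corr` (`Pool/Agent/H370R2/PC.lean`) bounds, for `T < γ, γ' ≤ 2T`, the sum of `phi(Λ, γ-γ')²` by `C T log T`; under GRH the terms are nonnegative and at least `c` for `|γ-γ'| log T ≤ c`. So `∑_I N(I)² ≤ C T log T` for the intervals
`I` of length `c / log T` in `(T, 2T]`; sum over dyadic intervals; for `S`: `N_S(I)² ≤ |S| ∑_χ N_χ(I)²`. Then `∑∑ x/(x²+v²)` for `x = a/log T`, `a ≤ 1`: pairs of intervals at distance `k` contribute at most `∑_I N(I) N(I+k) ≤ ∑_I N(I)²` times `C x/(x² + (c k/log T)²)`, and `a ∑_k a/(a²+c²k²) ≤ C`.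
(Compare `Y749.Rig.Mp_bdd` and `GM.R_crude` for zeta.) -/
def S_CRU : Prop := ∀ (q : ℕ) [NeZero q] (S : Finset (DirichletCharacter ℂ q)), InvCl S → (∀ χ ∈ S, GRH1 χ) → (dat S).Crude

/-- JOB GRS: the Riemann hypothesis from the mean square. `F = ∏_{χ ∈ S} L(s, χ)`, `(s-1)^m F` entire; the Laplace transform of `ph` is `-F'/(s F) - m/(s-1)` for `Re s > 1` and analytic for `Re s > 1/2`, so `F` has no zeros there (as `Q213/GM/Lap.lean`, `Q162/HV/GR.lean`); then `a_SY`. -/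
def S_GRS : Prop := ∀ (q : ℕ) [NeZero q] (S : Finset (DirichletCharacter ℂ q)), InvCl S →
  (∀ θ : ℝ, 1 < θ → IntegrableOn (fun w => (dat S).ph w ^ 2 * Real.exp (-(θ * w))) (Ioi 0)) → ∀ χ ∈ S, GRH1 χ

/-- JOB L2U: `L2_of_upper` (`Q213/GM/Upper.lean`) for `dat S`, from bounds in terms of `T` (as `L2_of_fin`, `GM/Xi.lean`). Uses only that `ph` is measurable and `|ph w| ≤ C e^w` (Chebyshev, `|psiS S x| ≤ |S| ψ(x)`); `κ = kT T`, `VV T b = T / log² T ∫_0^{b log T} Dl (kT T) u ² du`. -/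
def S_L2U : Prop := ∀ (q : ℕ) [NeZero q] (S : Finset (DirichletCharacter ℂ q)),
  (∀ b : ℝ, 1 ≤ b → ∃ C : ℝ, ∀ᶠ T : ℝ in atTop, (dat S).VV T b ≤ C) →
  ∀ θ : ℝ, 1 < θ → IntegrableOn (fun w => (dat S).ph w ^ 2 * Real.exp (-(θ * w))) (Ioi 0)

end Pool.Agent.Q260.GX
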